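import Pool.Agent.T9h45.LD.Spec

/-!
# Piece T1 of `Pool/Agent/T9h45/LD/Spec.lean`: maximum families of nonadjacent pairs
-/

set_option autoImplicit false

namespace Pool.Agent.T9h70.LD

open Finset Classical Pool.T9h45.HY Pool.T9h45.CP Pool.T9h45.LD

variable {V : Type} [Fintype V]

/-- a family of disjoint nonadjacent pairs, at most `m` in every class -/
structure Ok (G : SimpleGraph V) (cl : V → V) (m : ℕ) (σ : V → V) : Prop where
  inv : ∀ v, σ (σ v) = v
  cls : ∀ v, cl (σ v) = cl v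
  adj : ∀ v, ¬ G.Adj v (σ v)
  le : ∀ v, cPair cl σ v ≤ 2 * m

lemma cn_card (P : V → Prop) [DecidablePred P] : cn P = (univ.filter P).card := by
  unfold cn
  congr

lemma mem_cn {P : V → Prop} [DecidablePred P] {v : V} : v ∈ univ.filter P ↔ P v := by
  rw [mem_filter]
  exact ⟨fun h => h.2, fun h => ⟨mem_univ _, h⟩⟩

lemma cn_mono {P Q : V → Prop} (h : ∀ v, P v → Q v) : cn P ≤ cn Q := by
  rw [cn_card, cn_card]
  exact card_le_card fun w hw => mem_cn.2 (h w (mem_cn.1 hw))

lemma cn_lt {P Q : V → Prop} (h : ∀ v, P v → Q v) {x : V} (h1 : Q x) (h2 : ¬ P x) : cn P < cn Q := by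
  rw [cn_card, cn_card]
  apply card_lt_card
  rw [Finset.ssubset_iff_of_subset fun w hw => mem_cn.2 (h w (mem_cn.1 hw))]
  exact ⟨x, mem_cn.2 h1, fun h3 => h2 (mem_cn.1 h3)⟩

lemma cn_two {P Q : V → Prop} {u v : V} (h : ∀ w, P w → Q w ∨ w = u ∨ w = v) : cn P ≤ cn Q + 2 := by
  rw [cn_card, cn_card]
  calc (univ.filter P).card ≤ (univ.filter Q ∪ {u, v}).card := by
        apply card_le_card
        intro w hw
        rw [mem_union, mem_cn, mem_insert, mem_singleton]
        exact h w (mem_cn.1 hw)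
    _ ≤ (univ.filter Q).card + ({u, v} : Finset V).card := card_union_le _ _
    _ ≤ (univ.filter Q).card + 2 := Nat.add_le_add_left card_le_two _

lemma even_pair {cl σ : V → V} (h1 : ∀ v, σ (σ v) = v) (h2 : ∀ v, cl (σ v) = cl v) (v : V) :
    Even (cPair cl σ v) := by
  unfold cPair
  rw [cn_card, ← ZMod.natCast_eq_zero_iff_even]
  set T := univ.filter (fun w => cl w = cl v ∧ σ w ≠ w) with hT
  have h3 : ∑ _x ∈ T, (1 : ZMod 2) = 0 := by
    refine Finset.sum_involution (fun a _ => σ a) (fun a _ => by decide) (fun a ha _ => ?_)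
      (fun a ha => ?_) (fun a _ => h1 a)
    · rw [hT, mem_filter] at ha
      exact ha.2.2
    · rw [hT, mem_filter] at ha ⊢
      refine ⟨mem_univ _, ?_, ?_⟩
      · rw [h2]
        exact ha.2.1
      · rw [h1]
        exact fun h => ha.2.2 h.symm
  rw [Finset.sum_const, nsmul_eq_mul, mul_one] at h3
  exact h3

/-- no augmentation -/
lemma no_aug {G : SimpleGraph V} {cl : V → V} {m : ℕ} {σ : V → V} (h : Ok G cl m σ)
    (hmax : ∀ τ, Ok G cl m τ → cn (fun v => τ v ≠ v) ≤ cn (fun v => σ v ≠ v)) {u v : V}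
    (hcl : cl v = cl u) (hu : σ u = u) (hs : cPair cl σ u < 2 * m) (τ : V → V)
    (h1 : ∀ w, τ (τ w) = w) (h2 : ∀ w, cl (τ w) = cl w) (h3 : ∀ w, ¬ G.Adj w (τ w))
    (h4 : ∀ w, τ w ≠ w ↔ (σ w ≠ w ∨ w = u ∨ w = v)) : False := by
  have hev := even_pair h.inv h.cls u
  have hs2 : cPair cl σ u + 2 ≤ 2 * m := by
    obtain ⟨r, hr⟩ := hev
    omega
  have hok : Ok G cl m τ := by
    refine ⟨h1, h2, h3, fun x => ?_⟩
    by_cases hx : cl x = cl u
    · have h5 : cPair cl τ x ≤ cPair cl σ u + 2 := by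
        refine cn_two (u := u) (v := v) fun w hw => ?_
        rcases (h4 w).1 hw.2 with h6 | h6
        · exact Or.inl ⟨hw.1.trans hx, h6⟩
        · exact Or.inr h6
      omega
    · have h5 : cPair cl τ x ≤ cPair cl σ x := by
        refine cn_mono fun w hw => ⟨hw.1, ?_⟩
        rcases (h4 w).1 hw.2 with h6 | h6 | h6
        · exact h6
        · exact absurd (by rw [← hw.1, h6]) hx
        · exact absurd (by rw [← hw.1, h6, hcl]) hx
      exact h5.trans (h.le x)
  have h6 := hmax τ hok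
  have h7 : cn (fun v => σ v ≠ v) < cn (fun v => τ v ≠ v) := by
    exact cn_lt (fun w hw => (h4 w).2 (Or.inl hw)) ((h4 u).2 (Or.inr (Or.inl rfl)))
      (fun h8 => h8 hu)
  omega

/-- one new pair -/
lemma aug1 {G : SimpleGraph V} {cl : V → V} {m : ℕ} {σ : V → V} (h : Ok G cl m σ)
    (hmax : ∀ τ, Ok G cl m τ → cn (fun v => τ v ≠ v) ≤ cn (fun v => σ v ≠ v)) {u v : V}
    (hcl : cl v = cl u) (hu : σ u = u) (hv : σ v = v) (hs : cPair cl σ u < 2 * m) (huv : u ≠ v) :
    G.Adj u v := by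
  by_contra hadj
  set τ : V → V := fun w => if w = u then v else if w = v then u else σ w with hτ
  have t1 : τ u = v := by simp [hτ]
  have t2 : τ v = u := by simp [hτ, huv.symm]
  have t3 : ∀ w, w ≠ u → w ≠ v → τ w = σ w := by
    intro w h1 h2
    simp [hτ, h1, h2]
  have s1 : ∀ w, w ≠ u → σ w ≠ u := by
    intro w h1 h2
    apply h1
    rw [← h.inv w, h2, hu]
  have s2 : ∀ w, w ≠ v → σ w ≠ v := by
    intro w h1 h2
    apply h1
    rw [← h.inv w, h2, hv]
  refine no_aug h hmax hcl hu hs τ (fun w => ?_) (fun w => ?_) (fun w => ?_) (fun w => ?_)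
  · by_cases h1 : w = u
    · rw [h1, t1, t2]
    by_cases h2 : w = v
    · rw [h2, t2, t1]
    rw [t3 w h1 h2, t3 _ (s1 w h1) (s2 w h2), h.inv]
  · by_cases h1 : w = u
    · rw [h1, t1, hcl]
    by_cases h2 : w = v
    · rw [h2, t2, hcl]
    rw [t3 w h1 h2, h.cls]
  · by_cases h1 : w = u
    · rw [h1, t1]
      exact hadj
    by_cases h2 : w = v
    · rw [h2, t2]
      exact fun h3 => hadj h3.symm
    rw [t3 w h1 h2]
    exact h.adj w
  · by_cases h1 : w = u
    · rw [h1, t1]
      exact ⟨fun _ => Or.inr (Or.inl rfl), fun _ => huv.symm⟩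
    by_cases h2 : w = v
    · rw [h2, t2]
      exact ⟨fun _ => Or.inr (Or.inr rfl), fun _ => huv⟩
    rw [t3 w h1 h2]
    constructor
    · exact fun h3 => Or.inl h3
    · rintro (h3 | h3 | h3)
      · exact h3
      · exact absurd h3 h1
      · exact absurd h3 h2

/-- an augmenting path of length three -/
lemma aug2 {G : SimpleGraph V} {cl : V → V} {m : ℕ} {σ : V → V} (h : Ok G cl m σ)
    (hmax : ∀ τ, Ok G cl m τ → cn (fun v => τ v ≠ v) ≤ cn (fun v => σ v ≠ v)) {u v q : V}
    (hcl : cl v = cl u) (hu : σ u = u) (hv : σ v = v) (hs : cPair cl σ u < 2 * m) (huv : u ≠ v)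
    (hq : cl q = cl u) (hqq : σ q ≠ q) (h1 : ¬ G.Adj u q) (h2 : ¬ G.Adj v (σ q)) : False := by
  have d1 : u ≠ q := by
    rintro rfl
    exact hqq hu
  have d2 : v ≠ q := by
    rintro rfl
    exact hqq hv
  have d3 : u ≠ σ q := by
    intro h3
    apply hqq
    rw [h3, h.inv] at hu
    exact hu.symm
  have d4 : v ≠ σ q := by
    intro h3
    rw [h3, h.inv] at hv
    exact hqq hv.symm
  set τ : V → V := fun w => if w = u then q else if w = q then u else
    if w = v then σ q else if w = σ q then v else σ w with hτ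
  have t1 : τ u = q := by simp [hτ]
  have t2 : τ q = u := by simp [hτ, d1.symm]
  have t3 : τ v = σ q := by simp [hτ, huv.symm, d2]
  have t4 : τ (σ q) = v := by simp [hτ, d3.symm, hqq, d4.symm]
  have t5 : ∀ w, w ≠ u → w ≠ q → w ≠ v → w ≠ σ q → τ w = σ w := by
    intro w h3 h4 h5 h6
    simp [hτ, h3, h4, h5, h6]
  have s1 : ∀ w, w ≠ u → σ w ≠ u := by
    intro w h3 h4
    apply h3
    rw [← h.inv w, h4, hu]
  have s2 : ∀ w, w ≠ v → σ w ≠ v := by
    intro w h3 h4
    apply h3
    rw [← h.inv w, h4, hv]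
  have s3 : ∀ w, w ≠ q → σ w ≠ σ q := by
    intro w h3 h4
    apply h3
    rw [← h.inv w, h4, h.inv]
  have s4 : ∀ w, w ≠ σ q → σ w ≠ q := by
    intro w h3 h4
    apply h3
    rw [← h4, h.inv]
  refine no_aug h hmax hcl hu hs τ (fun w => ?_) (fun w => ?_) (fun w => ?_) (fun w => ?_)
  · by_cases e1 : w = u
    · rw [e1, t1, t2]
    by_cases e2 : w = q
    · rw [e2, t2, t1]
    by_cases e3 : w = v
    · rw [e3, t3, t4]
    by_cases e4 : w = σ q
    · rw [e4, t4, t3]
    rw [t5 w e1 e2 e3 e4, t5 _ (s1 w e1) (s4 w e4) (s2 w e3) (s3 w e2), h.inv]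
  · by_cases e1 : w = u
    · rw [e1, t1, hq]
    by_cases e2 : w = q
    · rw [e2, t2, hq]
    by_cases e3 : w = v
    · rw [e3, t3, h.cls, hq, hcl]
    by_cases e4 : w = σ q
    · rw [e4, t4, h.cls, hq, hcl]
    rw [t5 w e1 e2 e3 e4, h.cls]
  · by_cases e1 : w = u
    · rw [e1, t1]
      exact h1
    by_cases e2 : w = q
    · rw [e2, t2]
      exact fun h3 => h1 h3.symm
    by_cases e3 : w = v
    · rw [e3, t3]
      exact h2
    by_cases e4 : w = σ q
    · rw [e4, t4]
      exact fun h3 => h2 h3.symm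
    rw [t5 w e1 e2 e3 e4]
    exact h.adj w
  · by_cases e1 : w = u
    · rw [e1, t1]
      exact ⟨fun _ => Or.inr (Or.inl rfl), fun _ => d1.symm⟩
    by_cases e2 : w = q
    · rw [e2, t2]
      exact ⟨fun _ => Or.inl hqq, fun _ => d1⟩
    by_cases e3 : w = v
    · rw [e3, t3]
      exact ⟨fun _ => Or.inr (Or.inr rfl), fun _ => d4.symm⟩
    by_cases e4 : w = σ q
    · rw [e4, t4]
      refine ⟨fun _ => Or.inl ?_, fun _ => d4⟩
      rw [h.inv]
      exact hqq.symm
    rw [t5 w e1 e2 e3 e4]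
    constructor
    · exact fun h3 => Or.inl h3
    · rintro (h3 | h3 | h3)
      · exact h3
      · exact absurd h3 e1
      · exact absurd h3 e3

/-- (T1) -/
theorem t1 : ST1 := by
  intro V _ G cl m
  have hne : Nonempty {σ : V → V // Ok G cl m σ} := by
    refine ⟨⟨id, fun v => rfl, fun v => rfl, fun v => G.loopless.irrefl v, fun v => ?_⟩⟩
    unfold cPair
    rw [cn_card]
    simp
  obtain ⟨⟨σ, hσ⟩, hm⟩ := Finite.exists_max
    (fun σ : {σ : V → V // Ok G cl m σ} => cn (fun v => σ.1 v ≠ v))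
  have hmax : ∀ τ, Ok G cl m τ → cn (fun v => τ v ≠ v) ≤ cn (fun v => σ v ≠ v) :=
    fun τ hτ => hm ⟨τ, hτ⟩
  have hcp : ∀ u v, cl u = cl v → cPair cl σ u = cPair cl σ v := by
    intro u v huv
    unfold cPair
    rw [huv]
  set big : V → Prop := fun v => cPair cl σ v = 2 * m with hbig
  set bad : V → Prop := fun u => ¬ big u ∧ σ u = u ∧ ∃ q, cl q = cl u ∧ σ q ≠ q ∧
    ¬ G.Adj u q ∧ ¬ G.Adj u (σ q) with hbad
  have hsm : ∀ v, ¬ big v → cPair cl σ v < 2 * m := fun v hv => lt_of_le_of_ne (hσ.le v) hv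
  refine ⟨big, bad, σ, ?_, hσ.inv, hσ.cls, hσ.adj, fun v hv => hv, ?_, fun v hv => hv.2.1, ?_, ?_⟩
  · intro u v huv
    show cPair cl σ u = 2 * m ↔ cPair cl σ v = 2 * m
    rw [hcp u v huv]
  · intro v hv
    refine ⟨hsm v hv, ?_⟩
    have hch : ∀ u, ∃ q, bad u → cl q = cl u ∧ σ q ≠ q ∧ ¬ G.Adj u q ∧ ¬ G.Adj u (σ q) := by
      intro u
      by_cases hu : bad u
      · obtain ⟨q, hq⟩ := hu.2.2
        exact ⟨q, fun _ => hq⟩
      · exact ⟨u, fun h => absurd h hu⟩
    choose q hq using hch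
    have key : ∀ u u', bad u → bad u' → cl u = cl v → cl u' = cl v →
        (q u' = q u ∨ q u' = σ (q u)) → u = u' := by
      intro u u' hu hu' hc hc' he
      by_contra hne
      obtain ⟨a1, a2, a3, a4⟩ := hq u hu
      obtain ⟨b1, b2, b3, b4⟩ := hq u' hu'
      have hadj : ¬ G.Adj u' (σ (q u)) := by
        rcases he with he | he
        · rw [← he]
          exact b4
        · rw [← he]
          exact b3
      have hsu : cPair cl σ u < 2 * m := by
        rw [hcp u v hc]
        exact hsm v hv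
      exact aug2 hσ hmax (hc'.trans hc.symm) hu.2.1 hu'.2.1 hsu hne a1 a2 a3 hadj
    unfold cPair
    rw [cn_card, cn_card]
    have hcard : 2 * (univ.filter (fun w => cl w = cl v ∧ bad w)).card =
        ((univ.filter (fun w => cl w = cl v ∧ bad w)) ×ˢ (univ : Finset Bool)).card := by
      rw [card_product, card_univ, Fintype.card_bool, mul_comm]
    rw [hcard]
    apply card_le_card_of_injOn (fun x : V × Bool => if x.2 then q x.1 else σ (q x.1))
    · rintro ⟨x, b⟩ hx
      rw [mem_coe, mem_product, mem_filter] at hx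
      obtain ⟨a1, a2, a3, a4⟩ := hq x hx.1.2.2
      rw [mem_coe, mem_filter]
      refine ⟨mem_univ _, ?_⟩
      cases b
      · refine ⟨?_, ?_⟩
        · show cl (σ (q x)) = cl v
          rw [hσ.cls, a1]
          exact hx.1.2.1
        · show σ (σ (q x)) ≠ σ (q x)
          rw [hσ.inv]
          exact a2.symm
      · refine ⟨?_, ?_⟩
        · show cl (q x) = cl v
          rw [a1]
          exact hx.1.2.1
        · exact a2
    · rintro ⟨x, a⟩ hx ⟨y, b⟩ hy hxy
      rw [mem_coe, mem_product, mem_filter] at hx hy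
      simp only at hx hy hxy
      have e1 : x = y := by
        apply key x y hx.1.2.2 hy.1.2.2 hx.1.2.1 hy.1.2.1
        cases a <;> cases b <;> simp only [Bool.false_eq_true, if_false, if_true] at hxy
        · left
          rw [← hσ.inv (q y), ← hxy, hσ.inv]
        · right
          exact hxy.symm
        · right
          rw [hxy, hσ.inv]
        · left
          exact hxy.symm
      subst e1
      obtain ⟨a1, a2, a3, a4⟩ := hq x hx.1.2.2
      cases a <;> cases b <;> simp only [Bool.false_eq_true, if_false, if_true] at hxy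
      · rfl
      · exact absurd hxy a2
      · exact absurd hxy.symm a2
      · rfl
  · intro u v hu hc huv hsu hsv
    exact aug1 hσ hmax hc.symm hsu hsv (hsm u hu) huv
  · intro u p hu hc hsu hb hp
    by_contra hcon
    rw [not_or] at hcon
    exact hb ⟨hu, hsu, p, hc, hp, hcon.1, hcon.2⟩

end Pool.Agent.T9h70.LD
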